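import Mathlib

set_option autoImplicit false

namespace Pool.Agent.H23.Cop

set_option linter.unusedSectionVars false
set_option linter.unusedVariables false
set_option linter.unusedSimpArgs false

/-- Gaussian integers -/
abbrev GI : Type := QuadraticAlgebra ℤ (-1) 0

/-- the ring ℤ[i, √3] -/
abbrev OO : Type := QuadraticAlgebra GI 3 0

/-- √3 -/
def pi3 : OO := ⟨0, 1⟩

/-- 1 + i -/
def gg : OO := ⟨⟨1, 1⟩, 0⟩

/-- i -/
def ii : OO := ⟨⟨0, 1⟩, 0⟩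

lemma three_re : (3 : GI).re = 3 := rfl
lemma three_im : (3 : GI).im = 0 := rfl

lemma ext4 {z w : OO} (h1 : z.re.re = w.re.re) (h2 : z.re.im = w.re.im) (h3 : z.im.re = w.im.re)
    (h4 : z.im.im = w.im.im) : z = w := by
  apply QuadraticAlgebra.ext
  · exact QuadraticAlgebra.ext h1 h2
  · exact QuadraticAlgebra.ext h3 h4

lemma rr_mul (z w : OO) : (z * w).re.re = z.re.re * w.re.re - z.re.im * w.re.im
    + 3 * (z.im.re * w.im.re - z.im.im * w.im.im) := by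
  simp only [QuadraticAlgebra.re_mul, QuadraticAlgebra.im_mul, QuadraticAlgebra.re_add,
    QuadraticAlgebra.im_add, three_re, three_im]
  ring

lemma ri_mul (z w : OO) : (z * w).re.im = z.re.re * w.re.im + z.re.im * w.re.re
    + 3 * (z.im.re * w.im.im + z.im.im * w.im.re) := by
  simp only [QuadraticAlgebra.re_mul, QuadraticAlgebra.im_mul, QuadraticAlgebra.re_add,
    QuadraticAlgebra.im_add, three_re, three_im]
  ring

lemma ir_mul (z w : OO) : (z * w).im.re = z.re.re * w.im.re - z.re.im * w.im.im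
    + (z.im.re * w.re.re - z.im.im * w.re.im) := by
  simp only [QuadraticAlgebra.re_mul, QuadraticAlgebra.im_mul, QuadraticAlgebra.re_add,
    QuadraticAlgebra.im_add, three_re, three_im, QuadraticAlgebra.re_zero,
    QuadraticAlgebra.im_zero, zero_mul, mul_zero, add_zero]
  ring

lemma im_im_mul (z w : OO) : (z * w).im.im = z.re.re * w.im.im + z.re.im * w.im.re
    + (z.im.re * w.re.im + z.im.im * w.re.re) := by
  simp only [QuadraticAlgebra.re_mul, QuadraticAlgebra.im_mul, QuadraticAlgebra.re_add,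
    QuadraticAlgebra.im_add, three_re, three_im, QuadraticAlgebra.re_zero,
    QuadraticAlgebra.im_zero, zero_mul, mul_zero, add_zero]

lemma pi_re_re : pi3.re.re = 0 := rfl
lemma pi_re_im : pi3.re.im = 0 := rfl
lemma pi_im_re : pi3.im.re = 1 := rfl
lemma pi_im_im : pi3.im.im = 0 := rfl

lemma pi_mul (z : OO) : (pi3 * z).re.re = 3 * z.im.re ∧ (pi3 * z).re.im = 3 * z.im.im ∧
    (pi3 * z).im.re = z.re.re ∧ (pi3 * z).im.im = z.re.im := by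
  refine ⟨?_, ?_, ?_, ?_⟩
  · rw [rr_mul]; simp only [pi_re_re, pi_re_im, pi_im_re, pi_im_im]; ring
  · rw [ri_mul]; simp only [pi_re_re, pi_re_im, pi_im_re, pi_im_im]; ring
  · rw [ir_mul]; simp only [pi_re_re, pi_re_im, pi_im_re, pi_im_im]; ring
  · rw [im_im_mul]; simp only [pi_re_re, pi_re_im, pi_im_re, pi_im_im]; ring

lemma pi_cancel {z w : OO} (h : pi3 * z = pi3 * w) : z = w := by
  obtain ⟨a1, a2, a3, a4⟩ := pi_mul z
  obtain ⟨b1, b2, b3, b4⟩ := pi_mul w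
  rw [h] at a1 a2 a3 a4
  apply ext4 <;> omega

lemma pi_sq : pi3 * pi3 = 3 := by
  obtain ⟨a1, a2, a3, a4⟩ := pi_mul pi3
  apply ext4
  · rw [a1]; rfl
  · rw [a2]; rfl
  · rw [a3]; rfl
  · rw [a4]; rfl

lemma pi_dvd {z : OO} : pi3 ∣ z ↔ (3 : ℤ) ∣ z.re.re ∧ (3 : ℤ) ∣ z.re.im := by
  constructor
  · rintro ⟨w, rfl⟩
    obtain ⟨a1, a2, a3, a4⟩ := pi_mul w
    rw [a1, a2]
    exact ⟨⟨_, rfl⟩, ⟨_, rfl⟩⟩
  · rintro ⟨⟨a, ha⟩, ⟨b, hb⟩⟩
    refine ⟨⟨z.im, ⟨a, b⟩⟩, ?_⟩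
    obtain ⟨a1, a2, a3, a4⟩ := pi_mul (⟨z.im, ⟨a, b⟩⟩ : OO)
    apply ext4
    · rw [a1]; exact ha
    · rw [a2]; exact hb
    · rw [a3]
    · rw [a4]

lemma pi_pow_cancel {z w : OO} {n : ℕ} (h : pi3 ^ (n + 1) ∣ pi3 * z) : pi3 ^ n ∣ z := by
  obtain ⟨w, hw⟩ := h
  refine ⟨w, pi_cancel ?_⟩
  rw [hw, pow_succ']
  ring

/-- residue field computation -/
lemma res_anis : ∀ a0 a1 b0 b1 : ZMod 3,
    a0 ^ 2 - a1 ^ 2 - (b0 ^ 2 - b1 ^ 2 - 2 * b0 * b1) = 0 →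
    2 * a0 * a1 - (b0 ^ 2 - b1 ^ 2 + 2 * b0 * b1) = 0 →
    a0 = 0 ∧ a1 = 0 ∧ b0 = 0 ∧ b1 = 0 := by
  decide

lemma gg_re_re : gg.re.re = 1 := rfl
lemma gg_re_im : gg.re.im = 1 := rfl
lemma gg_im_re : gg.im.re = 0 := rfl
lemma gg_im_im : gg.im.im = 0 := rfl

/-- anisotropy modulo `√3` -/
lemma base_anis {a b : OO} (h : pi3 ∣ a ^ 2 - gg * b ^ 2) : pi3 ∣ a ∧ pi3 ∣ b := by
  rw [pi_dvd] at h
  obtain ⟨h1, h2⟩ := h
  have e1 : (a ^ 2 - gg * b ^ 2).re.re = a.re.re ^ 2 - a.re.im ^ 2 -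
      (b.re.re ^ 2 - b.re.im ^ 2 - 2 * b.re.re * b.re.im) +
      3 * ((a.im.re ^ 2 - a.im.im ^ 2) - (b.im.re ^ 2 - b.im.im ^ 2 - 2 * b.im.re * b.im.im)) := by
    rw [QuadraticAlgebra.re_sub, QuadraticAlgebra.re_sub, sq a, sq b, rr_mul, rr_mul, rr_mul,
      ri_mul, ir_mul, im_im_mul]
    simp only [gg_re_re, gg_re_im, gg_im_re, gg_im_im]
    ring
  have e2 : (a ^ 2 - gg * b ^ 2).re.im = 2 * a.re.re * a.re.im -
      (b.re.re ^ 2 - b.re.im ^ 2 + 2 * b.re.re * b.re.im) +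
      3 * ((2 * a.im.re * a.im.im) - (b.im.re ^ 2 - b.im.im ^ 2 + 2 * b.im.re * b.im.im)) := by
    rw [QuadraticAlgebra.re_sub, QuadraticAlgebra.im_sub, sq a, sq b, ri_mul, ri_mul, rr_mul,
      ri_mul, ir_mul, im_im_mul]
    simp only [gg_re_re, gg_re_im, gg_im_re, gg_im_im]
    ring
  rw [e1] at h1
  rw [e2] at h2
  have f1 : (3 : ℤ) ∣ a.re.re ^ 2 - a.re.im ^ 2 -
      (b.re.re ^ 2 - b.re.im ^ 2 - 2 * b.re.re * b.re.im) := by
    rwa [dvd_add_left ⟨_, rfl⟩] at h1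
  have f2 : (3 : ℤ) ∣ 2 * a.re.re * a.re.im -
      (b.re.re ^ 2 - b.re.im ^ 2 + 2 * b.re.re * b.re.im) := by
    rwa [dvd_add_left ⟨_, rfl⟩] at h2
  have f1' := (ZMod.intCast_zmod_eq_zero_iff_dvd _ 3).2 (by exact_mod_cast f1 :
    ((3 : ℕ) : ℤ) ∣ a.re.re ^ 2 - a.re.im ^ 2 -
      (b.re.re ^ 2 - b.re.im ^ 2 - 2 * b.re.re * b.re.im))
  have f2' := (ZMod.intCast_zmod_eq_zero_iff_dvd _ 3).2 (by exact_mod_cast f2 :
    ((3 : ℕ) : ℤ) ∣ 2 * a.re.re * a.re.im -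
      (b.re.re ^ 2 - b.re.im ^ 2 + 2 * b.re.re * b.re.im))
  push_cast at f1' f2'
  obtain ⟨g1, g2, g3, g4⟩ := res_anis _ _ _ _ f1' f2'
  rw [ZMod.intCast_zmod_eq_zero_iff_dvd] at g1 g2 g3 g4
  exact ⟨pi_dvd.2 ⟨g1, g2⟩, pi_dvd.2 ⟨g3, g4⟩⟩

/-- the quaternary form -/
def qf (x : Fin 4 → OO) : OO := x 0 ^ 2 - gg * x 1 ^ 2 - pi3 * (x 2 ^ 2 - gg * x 3 ^ 2)

/-- anisotropy -/
lemma anis : ∀ (n : ℕ) (x : Fin 4 → OO), pi3 ^ (2 * n) ∣ qf x → ∀ i, pi3 ^ n ∣ x i := by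
  intro n
  induction n with
  | zero => intro x _ i; simp
  | succ n ih =>
    intro x h
    have h1 : pi3 ∣ x 0 ^ 2 - gg * x 1 ^ 2 := by
      have : pi3 ∣ qf x := (dvd_pow_self pi3 (by omega)).trans h
      unfold qf at this
      rwa [dvd_sub_left ⟨_, rfl⟩] at this
    obtain ⟨⟨a, ha⟩, ⟨b, hb⟩⟩ := base_anis h1
    have h2 : pi3 ∣ x 2 ^ 2 - gg * x 3 ^ 2 := by
      have h3 : pi3 ^ 2 ∣ qf x := (pow_dvd_pow pi3 (by omega)).trans h
      have h4 : pi3 ^ (1 + 1) ∣ pi3 * (x 2 ^ 2 - gg * x 3 ^ 2) := by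
        have h5 : pi3 * (x 2 ^ 2 - gg * x 3 ^ 2) = pi3 ^ 2 * (a ^ 2 - gg * b ^ 2) - qf x := by
          unfold qf
          rw [ha, hb]
          ring
        rw [h5]
        exact dvd_sub (Dvd.intro _ rfl) h3
      simpa using pi_pow_cancel (w := 0) h4
    obtain ⟨⟨c, hc⟩, ⟨d, hd⟩⟩ := base_anis h2
    have h6 : qf x = pi3 * (pi3 * qf ![a, b, c, d]) := by
      unfold qf
      rw [ha, hb, hc, hd]
      simp only [Matrix.cons_val_zero, Matrix.cons_val_one, Matrix.cons_val]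
      ring
    rw [h6, show 2 * (n + 1) = (2 * n + 1) + 1 by ring] at h
    have h7 := pi_pow_cancel (w := 0) (pi_pow_cancel (w := 0) h)
    have h8 := ih _ h7
    intro i
    have e0 := h8 0
    have e1 := h8 1
    have e2 := h8 2
    have e3 := h8 3
    simp only [Matrix.cons_val_zero, Matrix.cons_val_one, Matrix.cons_val] at e0 e1 e2 e3
    rw [pow_succ']
    fin_cases i
    · show pi3 * pi3 ^ n ∣ x 0
      rw [ha]; exact mul_dvd_mul_left _ e0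
    · show pi3 * pi3 ^ n ∣ x 1
      rw [hb]; exact mul_dvd_mul_left _ e1
    · show pi3 * pi3 ^ n ∣ x 2
      rw [hc]; exact mul_dvd_mul_left _ e2
    · show pi3 * pi3 ^ n ∣ x 3
      rw [hd]; exact mul_dvd_mul_left _ e3

lemma pi_pow_two_mul (n : ℕ) : pi3 ^ (2 * n) = ((3 ^ n : ℤ) : OO) := by
  rw [pow_mul, sq, pi_sq]
  push_cast
  rfl

lemma int_mul_coord (t : ℤ) (z : OO) : ((t : OO) * z).re.re = t * z.re.re ∧
    ((t : OO) * z).re.im = t * z.re.im ∧ ((t : OO) * z).im.re = t * z.im.re ∧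
    ((t : OO) * z).im.im = t * z.im.im := by
  have c1 : (t : OO).re.re = t := rfl
  have c2 : (t : OO).re.im = 0 := rfl
  have c3 : (t : OO).im.re = 0 := rfl
  have c4 : (t : OO).im.im = 0 := rfl
  refine ⟨?_, ?_, ?_, ?_⟩
  · rw [rr_mul, c1, c2, c3, c4]; ring
  · rw [ri_mul, c1, c2, c3, c4]; ring
  · rw [ir_mul, c1, c2, c3, c4]; ring
  · rw [im_im_mul, c1, c2, c3, c4]; ring

lemma int_zero_of_pow {t : ℤ} (h : ∀ n : ℕ, (3 : ℤ) ^ n ∣ t) : t = 0 := by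
  by_contra hne
  have h1 := h (t.natAbs + 1)
  have h2 : (3 : ℤ) ^ (t.natAbs + 1) ≤ |t| := Int.le_of_dvd (abs_pos.2 hne) ((dvd_abs _ _).2 h1)
  have h3 : t.natAbs < 3 ^ t.natAbs := Nat.lt_pow_self (by norm_num)
  have h4 : (t.natAbs : ℤ) = |t| := Int.natCast_natAbs t
  have h5 : (3 : ℤ) ^ t.natAbs ≤ 3 ^ (t.natAbs + 1) := pow_le_pow_right₀ (by norm_num) (by omega)
  have h6 : ((t.natAbs : ℕ) : ℤ) < (3 : ℤ) ^ t.natAbs := by exact_mod_cast h3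
  omega

lemma zero_of_pi_pow {z : OO} (h : ∀ n : ℕ, pi3 ^ n ∣ z) : z = 0 := by
  have h1 : ∀ n : ℕ, (3 : ℤ) ^ n ∣ z.re.re ∧ (3 : ℤ) ^ n ∣ z.re.im ∧ (3 : ℤ) ^ n ∣ z.im.re ∧
      (3 : ℤ) ^ n ∣ z.im.im := by
    intro n
    have h2 := h (2 * n)
    rw [pi_pow_two_mul] at h2
    obtain ⟨w, rfl⟩ := h2
    obtain ⟨a1, a2, a3, a4⟩ := int_mul_coord (3 ^ n) w
    rw [a1, a2, a3, a4]
    exact ⟨⟨_, rfl⟩, ⟨_, rfl⟩, ⟨_, rfl⟩, ⟨_, rfl⟩⟩
  apply ext4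
  · exact int_zero_of_pow (fun n => (h1 n).1)
  · exact int_zero_of_pow (fun n => (h1 n).2.1)
  · exact int_zero_of_pow (fun n => (h1 n).2.2.1)
  · exact int_zero_of_pow (fun n => (h1 n).2.2.2)

lemma int_mul_eq_zero {t : ℤ} (ht : t ≠ 0) {z : OO} (h : (t : OO) * z = 0) : z = 0 := by
  obtain ⟨a1, a2, a3, a4⟩ := int_mul_coord t z
  rw [h] at a1 a2 a3 a4
  have c1 : (0 : OO).re.re = 0 := rfl
  have c2 : (0 : OO).re.im = 0 := rfl
  have c3 : (0 : OO).im.re = 0 := rfl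
  have c4 : (0 : OO).im.im = 0 := rfl
  rw [c1] at a1
  rw [c2] at a2
  rw [c3] at a3
  rw [c4] at a4
  have d1 := (mul_eq_zero.1 a1.symm).resolve_left ht
  have d2 := (mul_eq_zero.1 a2.symm).resolve_left ht
  have d3 := (mul_eq_zero.1 a3.symm).resolve_left ht
  have d4 := (mul_eq_zero.1 a4.symm).resolve_left ht
  exact ext4 d1 d2 d3 d4

/-- square roots of integers congruent to 1 modulo 3 -/
lemma sqrt_unit {m : ℤ} (hm : (3 : ℤ) ∣ m - 1) : ∀ N : ℕ, ∃ s : ℤ, (3 : ℤ) ∣ s ^ 2 - 1 ∧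
    (3 : ℤ) ^ (N + 1) ∣ s ^ 2 - m := by
  intro N
  induction N with
  | zero =>
    refine ⟨1, by norm_num, ?_⟩
    obtain ⟨a, ha⟩ := hm
    exact ⟨-a, by rw [zero_add, pow_one]; linarith⟩
  | succ N ih =>
    obtain ⟨s, hs, ⟨t, ht⟩⟩ := ih
    obtain ⟨e, he⟩ := hs
    refine ⟨s + 3 ^ (N + 1) * (t * s), ?_, ?_⟩
    · refine ⟨e + 2 * 3 ^ N * t * s ^ 2 + 3 ^ (N + 1) * 3 ^ N * t ^ 2 * s ^ 2, ?_⟩
      rw [show (3 : ℤ) ^ (N + 1) = 3 * 3 ^ N by rw [pow_succ]; ring]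
      linear_combination he
    · refine ⟨t * (1 + 2 * e) + 3 ^ N * t ^ 2 * s ^ 2, ?_⟩
      rw [show (3 : ℤ) ^ (N + 1 + 1) = 3 * (3 * 3 ^ N) by rw [pow_succ, pow_succ]; ring,
        show (3 : ℤ) ^ (N + 1) = 3 * 3 ^ N by rw [pow_succ]; ring]
      rw [show (3 : ℤ) ^ (N + 1) = 3 * 3 ^ N by rw [pow_succ]; ring] at ht
      linear_combination ht + 3 * 3 ^ N * t * 2 * he

lemma ii_sq : ii ^ 2 = -1 := by
  rw [sq]
  have c1 : ii.re.re = 0 := rfl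
  have c2 : ii.re.im = 1 := rfl
  have c3 : ii.im.re = 0 := rfl
  have c4 : ii.im.im = 0 := rfl
  apply ext4
  · rw [rr_mul, c1, c2, c3, c4]; rfl
  · rw [ri_mul, c1, c2, c3, c4]; rfl
  · rw [ir_mul, c1, c2, c3, c4]; rfl
  · rw [im_im_mul, c1, c2, c3, c4]; rfl

/-- every integer is a square modulo every power of `√3` -/
lemma sqrt_int (D : ℤ) (N : ℕ) : ∃ δ : OO, pi3 ^ N ∣ δ ^ 2 - (D : OO) := by
  by_cases hD : D = 0
  · exact ⟨0, by rw [hD]; simp⟩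
  have hfin : FiniteMultiplicity (3 : ℤ) D := by
    rw [Int.finiteMultiplicity_iff]
    exact ⟨by norm_num, hD⟩
  obtain ⟨m, hm, hm3⟩ := hfin.exists_eq_pow_mul_and_not_dvd
  set k := multiplicity (3 : ℤ) D with hk
  have key : ∀ (m' : ℤ) (ε : OO), (3 : ℤ) ∣ m' - 1 → ε ^ 2 * (m' : OO) = (m : OO) →
      ∃ δ : OO, pi3 ^ N ∣ δ ^ 2 - (D : OO) := by
    intro m' ε h1 h2
    obtain ⟨s, _, ⟨t, ht⟩⟩ := sqrt_unit h1 N
    refine ⟨pi3 ^ k * ε * (s : OO), ?_⟩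
    have e1 : (pi3 ^ k * ε * (s : OO)) ^ 2 - (D : OO) =
        pi3 ^ (2 * k) * ε ^ 2 * (((s ^ 2 - m' : ℤ)) : OO) := by
      have e2 : (D : OO) = pi3 ^ (2 * k) * (ε ^ 2 * (m' : OO)) := by
        rw [h2, pi_pow_two_mul, hm]
        push_cast
        ring
      rw [e2]
      push_cast
      ring
    rw [e1, ht]
    push_cast
    have e3 : (3 : OO) ^ (N + 1) = pi3 ^ N * (pi3 ^ (N + 2)) := by
      rw [← pi_sq, ← pow_add, ← sq, ← pow_mul]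
      congr 1
      ring
    rw [e3]
    exact ⟨pi3 ^ (2 * k) * ε ^ 2 * (pi3 ^ (N + 2) * (t : OO)), by ring⟩
  have hcase : (3 : ℤ) ∣ m - 1 ∨ (3 : ℤ) ∣ -m - 1 := by omega
  rcases hcase with h | h
  · exact key m 1 h (by ring)
  · exact key (-m) ii h (by rw [ii_sq]; push_cast; ring)

/-- polar form -/
def pol (x h : Fin 4 → OO) : OO :=
  2 * x 0 * h 0 - gg * (2 * x 1 * h 1) - pi3 * (2 * x 2 * h 2 - gg * (2 * x 3 * h 3))

lemma qf_add (x h : Fin 4 → OO) : qf (x + h) = qf x + pol x h + qf h := by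
  unfold qf pol
  simp only [Pi.add_apply]
  ring

/-- Key Lemma: no nonzero pair `u, v` on which the form is proportional to a definite binary
integral form. -/
theorem key {u v : Fin 4 → OO} {a b c : ℤ} (ha : a ≠ 0) (hΔ : 4 * a * c - b ^ 2 ≠ 0)
    (h1 : (a : OO) * qf v = (c : OO) * qf u) (h2 : (a : OO) * pol u v = (b : OO) * qf u) :
    ∀ i, u i = 0 := by
  have hdiv : ∀ (n : ℕ) (δ : OO), pi3 ^ (2 * n) ∣ δ ^ 2 - ((-(4 * a * c - b ^ 2) : ℤ) : OO) →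
      ∀ i, pi3 ^ n ∣ 2 * (a : OO) * v i + (δ - (b : OO)) * u i := by
    intro n δ hδ
    have e : qf (fun i => 2 * (a : OO) * v i + (δ - (b : OO)) * u i) =
        (δ ^ 2 - ((-(4 * a * c - b ^ 2) : ℤ) : OO)) * qf u := by
      have e1 : qf (fun i => 2 * (a : OO) * v i + (δ - (b : OO)) * u i) =
          4 * (a : OO) * ((a : OO) * qf v) + 2 * (δ - (b : OO)) * ((a : OO) * pol u v) +
          (δ - (b : OO)) ^ 2 * qf u := by
        unfold qf pol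
        ring
      rw [e1, h1, h2]
      push_cast
      ring
    apply anis n
    rw [e]
    exact Dvd.dvd.mul_right hδ _
  intro i
  have hall : ∀ n : ℕ, pi3 ^ n ∣ ((2 * (4 * a * c - b ^ 2) : ℤ) : OO) * u i := by
    intro n
    obtain ⟨δ, hδ⟩ := sqrt_int (-(4 * a * c - b ^ 2)) (2 * n)
    have d1 := hdiv n δ hδ i
    have d2 := hdiv n (-δ) (by rw [neg_sq]; exact hδ) i
    have d3 := dvd_sub d1 d2
    have d4 : pi3 ^ n ∣ δ ^ 2 - ((-(4 * a * c - b ^ 2) : ℤ) : OO) :=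
      (pow_dvd_pow _ (by omega)).trans hδ
    have e : ((2 * (4 * a * c - b ^ 2) : ℤ) : OO) * u i =
        2 * (δ ^ 2 - ((-(4 * a * c - b ^ 2) : ℤ) : OO)) * u i -
        δ * ((2 * (a : OO) * v i + (δ - (b : OO)) * u i) -
          (2 * (a : OO) * v i + (-δ - (b : OO)) * u i)) := by
      push_cast
      ring
    rw [e]
    exact dvd_sub (Dvd.dvd.mul_right (Dvd.dvd.mul_left d4 _) _) (Dvd.dvd.mul_left d3 _)
  have := zero_of_pi_pow hall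
  exact int_mul_eq_zero (by omega) this

end Pool.Agent.H23.Cop
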