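import Mathlib
import Pool.Agent.H23.Cop.Ring

set_option autoImplicit false

namespace Pool.Agent.H23.Cop

set_option linter.unusedSectionVars false
set_option linter.unusedVariables false
set_option linter.unusedSimpArgs false

open Finset Matrix

/-- four integer coordinates to an element of the ring -/
def toO (c : Fin 4 → ℤ) : OO := ⟨⟨c 0, c 1⟩, ⟨c 2, c 3⟩⟩

/-- coordinates -/
def ofO (z : OO) : Fin 4 → ℤ := ![z.re.re, z.re.im, z.im.re, z.im.im]

lemma toO_ofO (z : OO) : toO (ofO z) = z := rfl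

lemma toO_add (c d : Fin 4 → ℤ) : toO (c + d) = toO c + toO d := rfl

lemma toO_sub (c d : Fin 4 → ℤ) : toO (c - d) = toO c - toO d := rfl

lemma toO_smul (n : ℤ) (c : Fin 4 → ℤ) : toO (n • c) = (n : OO) * toO c := by
  obtain ⟨a1, a2, a3, a4⟩ := int_mul_coord n (toO c)
  apply ext4
  · rw [a1]; rfl
  · rw [a2]; rfl
  · rw [a3]; rfl
  · rw [a4]; rfl

lemma toO_eq_zero {c : Fin 4 → ℤ} (h : toO c = 0) : c = 0 := by
  have h1 : (toO c).re.re = 0 := by rw [h]; rfl
  have h2 : (toO c).re.im = 0 := by rw [h]; rfl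
  have h3 : (toO c).im.re = 0 := by rw [h]; rfl
  have h4 : (toO c).im.im = 0 := by rw [h]; rfl
  funext i
  fin_cases i
  · exact h1
  · exact h2
  · exact h3
  · exact h4

/-- index set of the `x`-coordinates -/
abbrev IX (k : ℕ) : Type := Fin k × Fin 4 × Fin 4

/-- all coordinates -/
abbrev II (k : ℕ) : Type := IX k ⊕ (Fin k × Fin 4)

variable {k : ℕ}

/-- the `j`-th block -/
def blk (x : IX k → ℤ) (j : Fin k) : Fin 4 → OO := fun i => toO (fun c => x (j, i, c))

lemma blk_add (x y : IX k → ℤ) (j : Fin k) : blk (x + y) j = blk x j + blk y j := by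
  funext i; rfl

lemma blk_sub (x y : IX k → ℤ) (j : Fin k) : blk (x - y) j = blk x j - blk y j := by
  funext i; rfl

lemma blk_smul (n : ℤ) (x : IX k → ℤ) (j : Fin k) (i : Fin 4) :
    blk (n • x) j i = (n : OO) * blk x j i := by
  unfold blk
  rw [← toO_smul]
  rfl

/-- the point of `ℤ^{20k}` attached to `x` -/
def TT (x : IX k → ℤ) : II k → ℤ :=
  Sum.elim x (fun p => ofO (qf (blk x p.1)) p.2)

lemma TT_inl (x : IX k → ℤ) (i : IX k) : TT x (Sum.inl i) = x i := rfl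

lemma TT_inr (x : IX k → ℤ) (j : Fin k) : toO (fun c => TT x (Sum.inr (j, c))) = qf (blk x j) := rfl

/-- polar form is additive and homogeneous in the second variable -/
lemma pol_comb {x u v h : Fin 4 → OO} {n m l : OO} (H : ∀ i, n * h i = m * u i + l * v i) :
    n * pol x h = m * pol x u + l * pol x v := by
  unfold pol
  linear_combination (2 * x 0) * H 0 - gg * (2 * x 1) * H 1 - pi3 * (2 * x 2) * H 2 +
    pi3 * gg * (2 * x 3) * H 3

lemma qf_comb {u v h : Fin 4 → OO} {n m l : OO} (H : ∀ i, n * h i = m * u i + l * v i) :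
    n ^ 2 * qf h = m ^ 2 * qf u + m * l * pol u v + l ^ 2 * qf v := by
  have e : n ^ 2 * qf h = (n * h 0) ^ 2 - gg * (n * h 1) ^ 2 -
      pi3 * ((n * h 2) ^ 2 - gg * (n * h 3) ^ 2) := by
    unfold qf; ring
  rw [e, H 0, H 1, H 2, H 3]
  unfold qf pol
  ring

/-- relation coming from a block -/
lemma rel_blk {x0 x1 x2 xl : IX k → ℤ} {n m l : ℤ} (hn : n ≠ 0)
    (H : n • (TT xl - TT x0) = m • (TT x1 - TT x0) + l • (TT x2 - TT x0)) (j : Fin k) :
    ((m ^ 2 - n * m : ℤ) : OO) * qf (blk (x1 - x0) j) +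
      ((m * l : ℤ) : OO) * pol (blk (x1 - x0) j) (blk (x2 - x0) j) +
      ((l ^ 2 - n * l : ℤ) : OO) * qf (blk (x2 - x0) j) = 0 := by
  -- x-part
  have Hx : n • (xl - x0) = m • (x1 - x0) + l • (x2 - x0) := by
    funext i
    have := congrFun H (Sum.inl i)
    simpa [TT_inl] using this
  have Hb : ∀ i, (n : OO) * blk (xl - x0) j i = (m : OO) * blk (x1 - x0) j i +
      (l : OO) * blk (x2 - x0) j i := by
    intro i
    rw [← blk_smul, ← blk_smul, ← blk_smul, Hx, blk_add]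
    rfl
  -- y-part
  have Hy : (n : OO) * (qf (blk xl j) - qf (blk x0 j)) =
      (m : OO) * (qf (blk x1 j) - qf (blk x0 j)) + (l : OO) * (qf (blk x2 j) - qf (blk x0 j)) := by
    rw [← TT_inr, ← TT_inr, ← TT_inr, ← TT_inr, ← toO_sub, ← toO_sub, ← toO_sub, ← toO_smul,
      ← toO_smul, ← toO_smul, ← toO_add]
    congr 1
    funext c
    have := congrFun H (Sum.inr (j, c))
    simpa using this
  have hq : ∀ y : IX k → ℤ, qf (blk y j) - qf (blk x0 j) =
      pol (blk x0 j) (blk (y - x0) j) + qf (blk (y - x0) j) := by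
    intro y
    have h1 : blk y j = blk x0 j + blk (y - x0) j := by
      rw [← blk_add]; congr 1; abel
    rw [h1, qf_add]
    ring
  rw [hq, hq, hq] at Hy
  have h1 := pol_comb (x := blk x0 j) Hb
  have h2 := qf_comb Hb
  have h3 : (n : OO) * qf (blk (xl - x0) j) = (m : OO) * qf (blk (x1 - x0) j) +
      (l : OO) * qf (blk (x2 - x0) j) := by
    linear_combination Hy - h1
  push_cast
  linear_combination (n : OO) * h3 - h2

/-- the sphere relation -/
lemma rel_sph {x0 x1 x2 xl : IX k → ℤ} {n m l : ℤ} {R : ℤ}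
    (h0 : x0 ⬝ᵥ x0 = R) (h1 : x1 ⬝ᵥ x1 = R) (h2 : x2 ⬝ᵥ x2 = R) (hl : xl ⬝ᵥ xl = R)
    (Hx : n • (xl - x0) = m • (x1 - x0) + l • (x2 - x0)) :
    (m ^ 2 - n * m) * ((x1 - x0) ⬝ᵥ (x1 - x0)) + (m * l) * (2 * ((x1 - x0) ⬝ᵥ (x2 - x0))) +
      (l ^ 2 - n * l) * ((x2 - x0) ⬝ᵥ (x2 - x0)) = 0 := by
  have key : ∀ y : IX k → ℤ, y ⬝ᵥ y = R → 2 * (x0 ⬝ᵥ (y - x0)) = - ((y - x0) ⬝ᵥ (y - x0)) := by
    intro y hy
    rw [sub_dotProduct, dotProduct_sub, dotProduct_sub, h0, hy, dotProduct_comm y x0]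
    ring
  have e1 := key x1 h1
  have e2 := key x2 h2
  have el := key xl hl
  have f1 : n * (x0 ⬝ᵥ (xl - x0)) = m * (x0 ⬝ᵥ (x1 - x0)) + l * (x0 ⬝ᵥ (x2 - x0)) := by
    have := congrArg (fun z => x0 ⬝ᵥ z) Hx
    simp only [dotProduct_smul, dotProduct_add, smul_eq_mul] at this
    exact this
  have f2 : n ^ 2 * ((xl - x0) ⬝ᵥ (xl - x0)) = m ^ 2 * ((x1 - x0) ⬝ᵥ (x1 - x0)) +
      2 * m * l * ((x1 - x0) ⬝ᵥ (x2 - x0)) + l ^ 2 * ((x2 - x0) ⬝ᵥ (x2 - x0)) := by
    have := congrArg (fun z => z ⬝ᵥ z) Hx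
    simp only [dotProduct_smul, dotProduct_add, smul_dotProduct, add_dotProduct,
      smul_eq_mul, dotProduct_comm (x2 - x0) (x1 - x0)] at this
    linear_combination this
  linear_combination n ^ 2 * el - m * n * e1 - l * n * e2 - 2 * n * f1 - f2

/-- no three distinct points of a sphere are collinear -/
lemma no_col {p q r : IX k → ℤ} {R : ℤ} (hp : p ⬝ᵥ p = R) (hq : q ⬝ᵥ q = R) (hr : r ⬝ᵥ r = R)
    (hpq : p ≠ q) (hpr : p ≠ r) (hqr : q ≠ r) {a b : ℤ} (hab : a ≠ 0 ∨ b ≠ 0)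
    (h : a • (q - p) = b • (r - p)) : False := by
  have n1 : (q - p) ⬝ᵥ (q - p) ≠ 0 := by
    rw [Ne, dotProduct_self_eq_zero, sub_eq_zero]; exact fun h => hpq h.symm
  have n2 : (r - p) ⬝ᵥ (r - p) ≠ 0 := by
    rw [Ne, dotProduct_self_eq_zero, sub_eq_zero]; exact fun h => hpr h.symm
  have key : ∀ y : IX k → ℤ, y ⬝ᵥ y = R → 2 * (p ⬝ᵥ (y - p)) = - ((y - p) ⬝ᵥ (y - p)) := by
    intro y hy
    rw [sub_dotProduct, dotProduct_sub, dotProduct_sub, hp, hy, dotProduct_comm y p]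
    ring
  have e1 := key q hq
  have e2 := key r hr
  have f1 : a * (p ⬝ᵥ (q - p)) = b * (p ⬝ᵥ (r - p)) := by
    have := congrArg (fun z => p ⬝ᵥ z) h
    simpa only [dotProduct_smul, smul_eq_mul] using this
  have f2 : a ^ 2 * ((q - p) ⬝ᵥ (q - p)) = b ^ 2 * ((r - p) ⬝ᵥ (r - p)) := by
    have := congrArg (fun z => z ⬝ᵥ z) h
    simp only [dotProduct_smul, smul_dotProduct, smul_eq_mul] at this
    linear_combination this
  have f3 : a * ((q - p) ⬝ᵥ (q - p)) = b * ((r - p) ⬝ᵥ (r - p)) := by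
    linear_combination -2 * f1 + a * e1 - b * e2
  have f4 : b * (a - b) * ((r - p) ⬝ᵥ (r - p)) = 0 := by
    linear_combination f2 - a * f3
  have f5 : b * (a - b) = 0 := (mul_eq_zero.1 f4).resolve_right n2
  rcases mul_eq_zero.1 f5 with h5 | h5
  · rw [h5, zero_mul] at f3
    have := (mul_eq_zero.1 f3).resolve_right n1
    rcases hab with h6 | h6
    · exact h6 this
    · exact h6 h5
  · have h6 : a = b := by omega
    subst h6
    have ha : a ≠ 0 := by
      rcases hab with h6 | h6 <;> exact h6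
    apply hqr
    have h7 := smul_right_injective (IX k → ℤ) ha h
    exact sub_left_injective h7

/-- no five coplanar points -/
theorem no_five (x : Fin 5 → IX k → ℤ) (hinj : Function.Injective x) {R : ℤ}
    (hR : ∀ l, x l ⬝ᵥ x l = R)
    (hdep : ∀ l : Fin 5, ∃ n m r : ℤ, (n ≠ 0 ∨ m ≠ 0 ∨ r ≠ 0) ∧
      n • (TT (x l) - TT (x 0)) = m • (TT (x 1) - TT (x 0)) + r • (TT (x 2) - TT (x 0))) :
    False := by
  have hx : ∀ (l : Fin 5) (n m r : ℤ), n • (TT (x l) - TT (x 0)) =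
      m • (TT (x 1) - TT (x 0)) + r • (TT (x 2) - TT (x 0)) →
      n • (x l - x 0) = m • (x 1 - x 0) + r • (x 2 - x 0) := by
    intro l n m r H
    funext i
    have := congrFun H (Sum.inl i)
    simpa [TT_inl] using this
  have hne : ∀ a b : Fin 5, a ≠ b → x a ≠ x b := fun a b hab h => hab (hinj h)
  -- nonvanishing of the coefficients
  have hcoef : ∀ l : Fin 5, l ≠ 0 → l ≠ 1 → l ≠ 2 → ∀ n m r : ℤ, (n ≠ 0 ∨ m ≠ 0 ∨ r ≠ 0) →
      n • (x l - x 0) = m • (x 1 - x 0) + r • (x 2 - x 0) → n ≠ 0 ∧ m ≠ 0 ∧ r ≠ 0 := by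
    intro l h0 h1 h2 n m r hnz H
    have hn : n ≠ 0 := by
      rintro rfl
      rw [zero_smul] at H
      refine no_col (hR 0) (hR 1) (hR 2) (hne _ _ (by decide)) (hne _ _ (by decide))
        (hne _ _ (by decide)) (a := m) (b := -r) ?_ ?_
      · rcases hnz with h | h | h
        · exact absurd rfl h
        · exact Or.inl h
        · exact Or.inr (neg_ne_zero.2 h)
      · rw [neg_smul]
        exact eq_neg_of_add_eq_zero_left H.symm
    refine ⟨hn, ?_, ?_⟩
    · rintro rfl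
      rw [zero_smul, zero_add] at H
      exact no_col (hR 0) (hR l) (hR 2) (hne _ _ h0.symm) (hne _ _ (by decide))
        (hne _ _ h2) (Or.inl hn) H
    · rintro rfl
      rw [zero_smul, add_zero] at H
      exact no_col (hR 0) (hR l) (hR 1) (hne _ _ h0.symm) (hne _ _ (by decide))
        (hne _ _ h1) (Or.inl hn) H
  obtain ⟨n, m, r, hnz, H⟩ := hdep 3
  obtain ⟨n', m', r', hnz', H'⟩ := hdep 4
  have HX := hx 3 n m r H
  have HX' := hx 4 n' m' r' H'
  obtain ⟨hn, hm, hr⟩ := hcoef 3 (by decide) (by decide) (by decide) n m r hnz HX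
  obtain ⟨hn', hm', hr'⟩ := hcoef 4 (by decide) (by decide) (by decide) n' m' r' hnz' HX'
  -- the determinant
  have hκ : r * r' * (m * (r' - n') - m' * (r - n)) ≠ 0 := by
    refine mul_ne_zero (mul_ne_zero hr hr') ?_
    intro h0
    have e1 : n • (x 3 - x 2) = m • (x 1 - x 0) + (r - n) • (x 2 - x 0) := by
      have : x 3 - x 2 = (x 3 - x 0) - (x 2 - x 0) := by abel
      rw [this, smul_sub, HX, sub_smul]
      abel
    have e2 : n' • (x 4 - x 2) = m' • (x 1 - x 0) + (r' - n') • (x 2 - x 0) := by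
      have : x 4 - x 2 = (x 4 - x 0) - (x 2 - x 0) := by abel
      rw [this, smul_sub, HX', sub_smul]
      abel
    have e3 : (m' * n) • (x 3 - x 2) = (m * n') • (x 4 - x 2) := by
      rw [mul_smul, mul_smul, e1, e2, smul_add, smul_add, ← mul_smul, ← mul_smul, ← mul_smul,
        ← mul_smul]
      rw [show m' * m = m * m' by ring, show m' * (r - n) = m * (r' - n') by linarith]
    exact no_col (hR 2) (hR 3) (hR 4) (hne _ _ (by decide)) (hne _ _ (by decide))
      (hne _ _ (by decide)) (Or.inl (mul_ne_zero hm' hn)) e3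
  set a := (x 1 - x 0) ⬝ᵥ (x 1 - x 0) with ha
  set b := 2 * ((x 1 - x 0) ⬝ᵥ (x 2 - x 0)) with hb
  set c := (x 2 - x 0) ⬝ᵥ (x 2 - x 0) with hc
  have s1 := rel_sph (hR 0) (hR 1) (hR 2) (hR 3) HX
  have s2 := rel_sph (hR 0) (hR 1) (hR 2) (hR 4) HX'
  rw [← ha, ← hb, ← hc] at s1 s2
  have ha0 : a ≠ 0 := by
    rw [ha, Ne, dotProduct_self_eq_zero, sub_eq_zero]
    exact hne _ _ (by decide)
  have hΔ : 4 * a * c - b ^ 2 ≠ 0 := by
    intro h0
    have e1 : (a • (x 2 - x 0) - ((x 1 - x 0) ⬝ᵥ (x 2 - x 0)) • (x 1 - x 0)) ⬝ᵥ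
        (a • (x 2 - x 0) - ((x 1 - x 0) ⬝ᵥ (x 2 - x 0)) • (x 1 - x 0)) = 0 := by
      simp only [sub_dotProduct (a • (x 2 - x 0)), dotProduct_sub _ (a • (x 2 - x 0)),
        smul_dotProduct, dotProduct_smul, smul_eq_mul, dotProduct_comm (x 2 - x 0) (x 1 - x 0),
        ← ha, ← hc]
      have h4 : 4 * (a * c - ((x 1 - x 0) ⬝ᵥ (x 2 - x 0)) ^ 2) = 0 := by
        rw [hb] at h0
        linear_combination h0
      have h5 : a * c - ((x 1 - x 0) ⬝ᵥ (x 2 - x 0)) ^ 2 = 0 := by omega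
      linear_combination a * h5
    rw [dotProduct_self_eq_zero, sub_eq_zero] at e1
    exact no_col (hR 0) (hR 2) (hR 1) (hne _ _ (by decide)) (hne _ _ (by decide))
      (hne _ _ (by decide)) (Or.inl ha0) e1
  -- proportionality
  have hblk : ∀ j, ∀ i, blk (x 1 - x 0) j i = 0 := by
    intro j
    have b1 := rel_blk hn H j
    have b2 := rel_blk hn' H' j
    set w1 := qf (blk (x 1 - x 0) j) with hw1
    set w2 := pol (blk (x 1 - x 0) j) (blk (x 2 - x 0) j) with hw2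
    set w3 := qf (blk (x 2 - x 0) j) with hw3
    push_cast at b1 b2
    have s1' : ((m : OO) ^ 2 - n * m) * (a : OO) + (m * r : OO) * (b : OO) +
        ((r : OO) ^ 2 - n * r) * (c : OO) = 0 := by
      have := congrArg (fun z : ℤ => (z : OO)) s1
      push_cast at this
      exact this
    have s2' : ((m' : OO) ^ 2 - n' * m') * (a : OO) + (m' * r' : OO) * (b : OO) +
        ((r' : OO) ^ 2 - n' * r') * (c : OO) = 0 := by
      have := congrArg (fun z : ℤ => (z : OO)) s2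
      push_cast at this
      exact this
    have k1 : ((r * r' * (m * (r' - n') - m' * (r - n)) : ℤ) : OO) *
        ((a : OO) * w3 - (c : OO) * w1) = 0 := by
      push_cast
      linear_combination (-(m' : OO) * r' * a) * b1 + (m * r * a : OO) * b2 +
        ((m' : OO) * r' * w1) * s1' - (m * r * w1 : OO) * s2'
    have k2 : ((r * r' * (m * (r' - n') - m' * (r - n)) : ℤ) : OO) *
        ((a : OO) * w2 - (b : OO) * w1) = 0 := by
      push_cast
      linear_combination (((r' : OO) ^ 2 - n' * r') * a) * b1 - (((r : OO) ^ 2 - n * r) * a) * b2 -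
        (((r' : OO) ^ 2 - n' * r') * w1) * s1' + (((r : OO) ^ 2 - n * r) * w1) * s2'
    have k1' := int_mul_eq_zero hκ k1
    have k2' := int_mul_eq_zero hκ k2
    exact key ha0 hΔ (sub_eq_zero.1 k1') (sub_eq_zero.1 k2')
  have : x 1 - x 0 = 0 := by
    funext ⟨j, i, c⟩
    have := toO_eq_zero (hblk j i)
    exact congrFun this c
  exact hne 1 0 (by decide) (sub_eq_zero.1 this)

end Pool.Agent.H23.Cop
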