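import Mathlib

set_option autoImplicit false

namespace Pool.Agent.H23.Cop

set_option linter.unusedSectionVars false
set_option linter.unusedVariables false

open Finset

variable {ι : Type} [Fintype ι] [DecidableEq ι]

/-- linear map with coefficients `θ` -/
def lin (θ : Fin 3 → ι → ℝ) (d : ι → ℤ) : Fin 3 → ℝ := fun r => ∑ i, θ r i * (d i : ℝ)

lemma lin_add (θ : Fin 3 → ι → ℝ) (d e : ι → ℤ) : lin θ (d + e) = lin θ d + lin θ e := by
  funext r
  unfold lin
  simp only [Pi.add_apply]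
  rw [← Finset.sum_add_distrib]
  apply Finset.sum_congr rfl
  intro i _
  push_cast
  ring

lemma lin_sub (θ : Fin 3 → ι → ℝ) (d e : ι → ℤ) : lin θ (d - e) = lin θ d - lin θ e := by
  funext r
  unfold lin
  simp only [Pi.sub_apply]
  rw [← Finset.sum_sub_distrib]
  apply Finset.sum_congr rfl
  intro i _
  push_cast
  ring

/-- integrally independent triples have rational dual functionals -/
lemma exists_dual (d : Fin 3 → ι → ℤ) (h : ∀ n : Fin 3 → ℤ, ∑ c, n c • d c = 0 → n = 0) :
    ∃ θ : Fin 3 → ι → ℝ, (Matrix.of fun r c => lin θ (d c) r).det ≠ 0 := by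
  let D : Fin 3 → ι → ℚ := fun c i => (d c i : ℚ)
  have hD : Function.Injective (Fintype.linearCombination ℚ D) := by
    rw [← LinearMap.ker_eq_bot, LinearMap.ker_eq_bot']
    intro q hq
    -- clear denominators
    obtain ⟨N, hN0, hN⟩ : ∃ N : ℤ, N ≠ 0 ∧ ∀ c, ∃ z : ℤ, (z : ℚ) = N * q c := by
      refine ⟨∏ c, ((q c).den : ℤ), ?_, ?_⟩
      · exact Finset.prod_ne_zero_iff.2 (fun c _ => by exact_mod_cast (q c).den_nz)
      · intro c
        refine ⟨(∏ c' ∈ univ.erase c, ((q c').den : ℤ)) * (q c).num, ?_⟩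
        rw [← Finset.mul_prod_erase univ _ (mem_univ c)]
        push_cast
        have h1 : ((q c).den : ℚ) * q c = (q c).num := by
          rw [mul_comm]; exact Rat.mul_den_eq_num (q c)
        rw [mul_comm ((q c).den : ℚ), mul_assoc, h1]
    choose z hz using hN
    have h1 : ∑ c, z c • d c = 0 := by
      funext i
      have h2 := congrFun hq i
      simp only [Fintype.linearCombination_apply, Finset.sum_apply, Pi.smul_apply, smul_eq_mul,
        Pi.zero_apply] at h2
      simp only [Finset.sum_apply, Pi.smul_apply, smul_eq_mul, Pi.zero_apply]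
      have h3 : ((∑ c, z c * d c i : ℤ) : ℚ) = 0 := by
        push_cast
        have h4 : ∑ c, (z c : ℚ) * (d c i : ℚ) = N * ∑ c, q c * D c i := by
          rw [Finset.mul_sum]
          apply Finset.sum_congr rfl
          intro c _
          rw [hz c]
          ring
        rw [h4, h2, mul_zero]
      exact_mod_cast h3
    have h5 := h z h1
    funext c
    have h6 := hz c
    rw [h5] at h6
    simp only [Pi.zero_apply, Int.cast_zero] at h6 ⊢
    have h7 : (N : ℚ) ≠ 0 := by exact_mod_cast hN0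
    exact (mul_eq_zero.1 h6.symm).resolve_left h7
  obtain ⟨f, hf⟩ := LinearMap.exists_leftInverse_of_injective _ (LinearMap.ker_eq_bot.2 hD)
  have hfd : ∀ c, f (D c) = Pi.single c 1 := by
    intro c
    have h1 := LinearMap.congr_fun hf (Pi.single c 1)
    simp only [LinearMap.comp_apply, LinearMap.id_apply] at h1
    rw [← h1]
    congr 1
    simp [Fintype.linearCombination_apply, Finset.sum_ite_eq, Pi.single_apply]
  refine ⟨fun r i => ((f (Pi.single i 1) r : ℚ) : ℝ), ?_⟩
  have hM : (Matrix.of fun r c => lin (fun r i => ((f (Pi.single i 1) r : ℚ) : ℝ)) (d c) r) =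
      (1 : Matrix (Fin 3) (Fin 3) ℝ) := by
    ext r c
    have h1 : D c = ∑ i, (d c i : ℚ) • (Pi.single i (1 : ℚ) : ι → ℚ) := by
      funext j
      simp [D, Finset.sum_apply, Pi.single_apply]
    have h2 : f (D c) r = ∑ i, (d c i : ℚ) * f (Pi.single i 1) r := by
      rw [h1, map_sum, Finset.sum_apply]
      apply Finset.sum_congr rfl
      intro i _
      rw [map_smul]; rfl
    rw [Matrix.of_apply, Matrix.one_apply]
    unfold lin
    have h3 : ∑ i, ((f (Pi.single i 1) r : ℚ) : ℝ) * (d c i : ℝ) = ((f (D c) r : ℚ) : ℝ) := by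
      rw [h2]
      push_cast
      apply Finset.sum_congr rfl
      intro i _
      ring
    rw [h3, hfd c, Pi.single_apply]
    split_ifs <;> norm_num
  rw [hM, Matrix.det_one]
  exact one_ne_zero

/-- generic projections -/
theorem generic (F : Finset (ι → ℤ)) : ∃ θ : Fin 3 → ι → ℝ, (∀ d ∈ F, d ≠ 0 → lin θ d ≠ 0) ∧
    ∀ d : Fin 3 → ι → ℤ, (∀ c, d c ∈ F) → (∀ n : Fin 3 → ℤ, ∑ c, n c • d c = 0 → n = 0) →
    (Matrix.of fun r c => lin θ (d c) r).det ≠ 0 := by
  classical
  let P1 : (ι → ℤ) → MvPolynomial (Fin 3 × ι) ℝ := fun d =>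
    ∑ i, MvPolynomial.X (0, i) * MvPolynomial.C (d i : ℝ)
  let P3 : (Fin 3 → ι → ℤ) → MvPolynomial (Fin 3 × ι) ℝ := fun d =>
    (Matrix.of fun (r c : Fin 3) => ∑ i, MvPolynomial.X (r, i) * MvPolynomial.C (d c i : ℝ)).det
  have e1 : ∀ (θ : Fin 3 × ι → ℝ) (d : ι → ℤ), MvPolynomial.eval θ (P1 d) =
      lin (fun r i => θ (r, i)) d 0 := by
    intro θ d
    simp only [P1, lin, map_sum, map_mul, MvPolynomial.eval_X, MvPolynomial.eval_C]
  have e3 : ∀ (θ : Fin 3 × ι → ℝ) (d : Fin 3 → ι → ℤ), MvPolynomial.eval θ (P3 d) =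
      (Matrix.of fun r c => lin (fun r i => θ (r, i)) (d c) r).det := by
    intro θ d
    simp only [P3]
    rw [RingHom.map_det]
    congr 1
    ext r c
    simp only [RingHom.mapMatrix_apply, Matrix.map_apply, Matrix.of_apply, lin, map_sum, map_mul,
      MvPolynomial.eval_X, MvPolynomial.eval_C]
  have n1 : ∀ d : ι → ℤ, d ≠ 0 → P1 d ≠ 0 := by
    intro d hd h0
    obtain ⟨j, hj⟩ := Function.ne_iff.1 hd
    have h1 := e1 (fun p => if p.2 = j then 1 else 0) d
    rw [h0, map_zero] at h1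
    unfold lin at h1
    simp only [ite_mul, one_mul, zero_mul, Finset.sum_ite_eq', mem_univ, if_true] at h1
    apply hj
    simpa using h1.symm
  have n3 : ∀ d : Fin 3 → ι → ℤ, (∀ n : Fin 3 → ℤ, ∑ c, n c • d c = 0 → n = 0) → P3 d ≠ 0 := by
    intro d hd h0
    obtain ⟨θ, hθ⟩ := exists_dual d hd
    apply hθ
    have := e3 (fun p => θ p.1 p.2) d
    rw [h0, map_zero] at this
    exact this.symm
  let S1 := F.filter (fun d => d ≠ 0)
  let S3 := (Fintype.piFinset (fun _ : Fin 3 => F)).filter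
    (fun d => ∀ n : Fin 3 → ℤ, ∑ c, n c • d c = 0 → n = 0)
  let Q : MvPolynomial (Fin 3 × ι) ℝ := (∏ d ∈ S1, P1 d) * ∏ d ∈ S3, P3 d
  have hQ : Q ≠ 0 := by
    apply mul_ne_zero
    · rw [Finset.prod_ne_zero_iff]
      intro d hd
      exact n1 d (mem_filter.1 hd).2
    · rw [Finset.prod_ne_zero_iff]
      intro d hd
      exact n3 d (mem_filter.1 hd).2
  obtain ⟨θ, hθ⟩ : ∃ θ : Fin 3 × ι → ℝ, MvPolynomial.eval θ Q ≠ 0 := by
    by_contra hno
    push Not at hno
    apply hQ
    apply MvPolynomial.funext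
    intro θ
    rw [hno θ, map_zero]
  simp only [Q, map_mul, map_prod] at hθ
  have hθ1 := left_ne_zero_of_mul hθ
  have hθ3 := right_ne_zero_of_mul hθ
  rw [Finset.prod_ne_zero_iff] at hθ1 hθ3
  refine ⟨fun r i => θ (r, i), ?_, ?_⟩
  · intro d hd hd0 h0
    apply hθ1 d (mem_filter.2 ⟨hd, hd0⟩)
    rw [e1, h0]
    rfl
  · intro d hd hind
    rw [← e3]
    exact hθ3 d (mem_filter.2 ⟨Fintype.mem_piFinset.2 hd, hind⟩)

end Pool.Agent.H23.Cop
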