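import Mathlib
import Pool.Agent.H23.Cop.Config
import Pool.Agent.H23.Cop.Generic

set_option autoImplicit false

namespace Pool.Agent.H23.Cop

set_option linter.unusedSectionVars false
set_option linter.unusedVariables false
set_option linter.unusedSimpArgs false

open Finset Matrix
open scoped Pointwise

/-- no five points of `A` lie on a common affine plane of `ℝ³` -/
def FiveGeneric (A : Finset (Fin 3 → ℝ)) : Prop :=
  ∀ (a : Fin 3 → ℝ) (c : ℝ), a ≠ 0 → {x : Fin 3 → ℝ | x ∈ A ∧ a ⬝ᵥ x = c}.ncard ≤ 4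

/-- coordinates bounded by `B` -/
def sz (z : OO) (B : ℤ) : Prop :=
  |z.re.re| ≤ B ∧ |z.re.im| ≤ B ∧ |z.im.re| ≤ B ∧ |z.im.im| ≤ B

lemma sz_mul {z w : OO} {B C : ℤ} (hz : sz z B) (hw : sz w C) : sz (z * w) (8 * (B * C)) := by
  obtain ⟨z1, z2, z3, z4⟩ := hz
  obtain ⟨w1, w2, w3, w4⟩ := hw
  have hB : 0 ≤ B := (abs_nonneg _).trans z1
  have hC : 0 ≤ C := (abs_nonneg _).trans w1
  have m : ∀ p q : ℤ, |p| ≤ B → |q| ≤ C → |p * q| ≤ B * C := by
    intro p q hp hq
    rw [abs_mul]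
    exact mul_le_mul hp hq (abs_nonneg _) hB
  have hBC : 0 ≤ B * C := mul_nonneg hB hC
  have a11 := abs_le.1 (m _ _ z1 w1)
  have a12 := abs_le.1 (m _ _ z1 w2)
  have a13 := abs_le.1 (m _ _ z1 w3)
  have a14 := abs_le.1 (m _ _ z1 w4)
  have a21 := abs_le.1 (m _ _ z2 w1)
  have a22 := abs_le.1 (m _ _ z2 w2)
  have a23 := abs_le.1 (m _ _ z2 w3)
  have a24 := abs_le.1 (m _ _ z2 w4)
  have a31 := abs_le.1 (m _ _ z3 w1)
  have a32 := abs_le.1 (m _ _ z3 w2)
  have a33 := abs_le.1 (m _ _ z3 w3)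
  have a34 := abs_le.1 (m _ _ z3 w4)
  have a41 := abs_le.1 (m _ _ z4 w1)
  have a42 := abs_le.1 (m _ _ z4 w2)
  have a43 := abs_le.1 (m _ _ z4 w3)
  have a44 := abs_le.1 (m _ _ z4 w4)
  refine ⟨?_, ?_, ?_, ?_⟩
  · rw [rr_mul, abs_le]; constructor <;> linarith [a11.1, a11.2]
  · rw [ri_mul, abs_le]; constructor <;> linarith [a11.1, a11.2]
  · rw [ir_mul, abs_le]; constructor <;> linarith [a11.1, a11.2]
  · rw [im_im_mul, abs_le]; constructor <;> linarith [a11.1, a11.2]

lemma sz_sub {z w : OO} {B C : ℤ} (hz : sz z B) (hw : sz w C) : sz (z - w) (B + C) := by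
  obtain ⟨z1, z2, z3, z4⟩ := hz
  obtain ⟨w1, w2, w3, w4⟩ := hw
  refine ⟨?_, ?_, ?_, ?_⟩
  · exact (abs_sub _ _).trans (add_le_add z1 w1)
  · exact (abs_sub _ _).trans (add_le_add z2 w2)
  · exact (abs_sub _ _).trans (add_le_add z3 w3)
  · exact (abs_sub _ _).trans (add_le_add z4 w4)

lemma sz_gg : sz gg 1 := by
  unfold sz
  rw [gg_re_re, gg_re_im, gg_im_re, gg_im_im]
  norm_num

lemma sz_pi : sz pi3 1 := by
  unfold sz
  rw [pi_re_re, pi_re_im, pi_im_re, pi_im_im]
  norm_num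

lemma sz_qf {x : Fin 4 → OO} {M : ℤ} (h : ∀ i, sz (x i) M) : sz (qf x) (648 * M ^ 2) := by
  have s : ∀ i, sz (x i ^ 2) (8 * (M * M)) := by
    intro i
    rw [sq]
    exact sz_mul (h i) (h i)
  have e1 := sz_sub (s 0) (sz_mul sz_gg (s 1))
  have e2 := sz_mul sz_pi (sz_sub (s 2) (sz_mul sz_gg (s 3)))
  have e3 := sz_sub e1 e2
  have : 8 * (M * M) + 8 * (1 * (8 * (M * M))) + 8 * (1 * (8 * (M * M) + 8 * (1 * (8 * (M * M)))))
      = 648 * M ^ 2 := by ring
  rw [this] at e3
  exact e3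

/-- the constant -/
def K0 : ℕ := 2 ^ 16 * 2593 ^ 4

/-- the construction -/
theorem construct (k M n : ℕ) (hk : 1 ≤ k) (hM : 1 ≤ M) (hn : 16 * k * M ^ 2 * n ≤ M ^ (16 * k)) :
    ∃ A : Finset (Fin 3 → ℝ), A.card = n ∧ FiveGeneric A ∧
      ((A : Set (Fin 3 → ℝ)) + (A : Set (Fin 3 → ℝ))).ncard ≤ K0 ^ k * M ^ (24 * k) := by
  classical
  let Box : Finset (IX k → ℤ) := Fintype.piFinset (fun _ => Finset.Ico (0 : ℤ) M)
  have hcardIX : Fintype.card (IX k) = 16 * k := by
    simp only [Fintype.card_prod, Fintype.card_fin]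
    ring
  have hBox : Box.card = M ^ (16 * k) := by
    simp only [Box, Fintype.card_piFinset, Int.card_Ico, sub_zero, Int.toNat_natCast,
      Finset.prod_const, Finset.card_univ]
    rw [hcardIX]
  have hmemBox : ∀ x ∈ Box, ∀ i, 0 ≤ x i ∧ x i < M := by
    intro x hx i
    have := Fintype.mem_piFinset.1 hx i
    rwa [Finset.mem_Ico] at this
  let t : Finset ℤ := Finset.Ico 0 ((16 * k * M ^ 2 : ℕ) : ℤ)
  have hmaps : ∀ x ∈ Box, x ⬝ᵥ x ∈ t := by
    intro x hx
    rw [Finset.mem_Ico]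
    constructor
    · exact Finset.sum_nonneg (fun i _ => mul_self_nonneg _)
    · have h1 : x ⬝ᵥ x ≤ ∑ i : IX k, ((M : ℤ) ^ 2 - 1) := by
        apply Finset.sum_le_sum
        intro i _
        obtain ⟨h2, h3⟩ := hmemBox x hx i
        nlinarith
      rw [Finset.sum_const, Finset.card_univ, hcardIX, nsmul_eq_mul] at h1
      have h4 : (1 : ℤ) ≤ k := by exact_mod_cast hk
      push_cast at h1 ⊢
      nlinarith
  have htne : t.Nonempty := by
    refine ⟨0, ?_⟩
    rw [Finset.mem_Ico]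
    refine ⟨le_rfl, ?_⟩
    have : 0 < 16 * k * M ^ 2 := by positivity
    exact_mod_cast this
  have htcard : t.card = 16 * k * M ^ 2 := by
    simp only [t, Int.card_Ico, sub_zero, Int.toNat_natCast]
  obtain ⟨R, hRt, hR⟩ := Finset.exists_le_card_fiber_of_mul_le_card_of_maps_to hmaps htne
    (n := n) (by rw [htcard, hBox]; exact hn)
  obtain ⟨S, hS, hScard⟩ := Finset.exists_subset_card_eq hR
  have hSR : ∀ x ∈ S, x ⬝ᵥ x = R := fun x hx => (mem_filter.1 (hS hx)).2
  have hSBox : ∀ x ∈ S, x ∈ Box := fun x hx => (mem_filter.1 (hS hx)).1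
  let F : Finset (II k → ℤ) := Finset.image₂ (fun x y => TT x - TT y) S S
  have hF : ∀ x ∈ S, ∀ y ∈ S, TT x - TT y ∈ F := fun x hx y hy => Finset.mem_image₂_of_mem hx hy
  obtain ⟨θ, hθ1, hθ3⟩ := generic F
  have hTTinj : ∀ x y : IX k → ℤ, TT x = TT y → x = y := by
    intro x y h
    funext i
    exact congrFun h (Sum.inl i)
  have hinj : ∀ x ∈ S, ∀ y ∈ S, lin θ (TT x) = lin θ (TT y) → x = y := by
    intro x hx y hy h
    by_contra hne
    apply hθ1 _ (hF x hx y hy)
    · intro h0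
      exact hne (hTTinj x y (sub_eq_zero.1 h0))
    · rw [lin_sub, h, sub_self]
  let A : Finset (Fin 3 → ℝ) := S.image (fun x => lin θ (TT x))
  have hAcard : A.card = n := by
    rw [← hScard]
    exact Finset.card_image_of_injOn (fun x hx y hy h => hinj x hx y hy h)
  refine ⟨A, hAcard, ?_, ?_⟩
  · intro a c ha
    by_contra hlt
    push Not at hlt
    have hsub : {x : Fin 3 → ℝ | x ∈ A ∧ a ⬝ᵥ x = c} ⊆
        (((S.filter (fun x => a ⬝ᵥ lin θ (TT x) = c)).image (fun x => lin θ (TT x)) :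
          Finset (Fin 3 → ℝ)) : Set (Fin 3 → ℝ)) := by
      rintro y ⟨hy1, hy2⟩
      obtain ⟨x, hx, rfl⟩ := mem_image.1 hy1
      rw [Finset.mem_coe, mem_image]
      exact ⟨x, mem_filter.2 ⟨hx, hy2⟩, rfl⟩
    have h1 := Set.ncard_le_ncard hsub (Finset.finite_toSet _)
    rw [Set.ncard_coe_finset] at h1
    have h2 : 5 ≤ (S.filter (fun x => a ⬝ᵥ lin θ (TT x) = c)).card := by
      have := Finset.card_image_le (s := S.filter (fun x => a ⬝ᵥ lin θ (TT x) = c))
        (f := fun x => lin θ (TT x))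
      omega
    obtain ⟨T, hT, hTcard⟩ := Finset.exists_subset_card_eq h2
    let e := (T.equivFinOfCardEq hTcard).symm
    let x : Fin 5 → IX k → ℤ := fun l => (e l).1
    have hxS : ∀ l, x l ∈ S := fun l => (mem_filter.1 (hT (e l).2)).1
    have hxc : ∀ l, a ⬝ᵥ lin θ (TT (x l)) = c := fun l => (mem_filter.1 (hT (e l).2)).2
    have hxinj : Function.Injective x := by
      intro l l' h
      exact e.injective (Subtype.ext h)
    apply no_five x hxinj (R := R) (fun l => hSR _ (hxS l))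
    intro l
    let d : Fin 3 → II k → ℤ := ![TT (x l) - TT (x 0), TT (x 1) - TT (x 0), TT (x 2) - TT (x 0)]
    have hd : ∀ c, d c ∈ F := by
      intro c
      fin_cases c
      · exact hF _ (hxS l) _ (hxS 0)
      · exact hF _ (hxS 1) _ (hxS 0)
      · exact hF _ (hxS 2) _ (hxS 0)
    have hdet : (Matrix.of fun r c => lin θ (d c) r).det = 0 := by
      rw [← Matrix.exists_vecMul_eq_zero_iff]
      refine ⟨a, ha, ?_⟩
      have hz : ∀ l' l'' : Fin 5, a ⬝ᵥ lin θ (TT (x l') - TT (x l'')) = 0 := by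
        intro l' l''
        rw [lin_sub, dotProduct_sub, hxc, hxc, sub_self]
      funext c
      show (a ⬝ᵥ fun r => lin θ (d c) r) = 0
      fin_cases c
      · exact hz l 0
      · exact hz 1 0
      · exact hz 2 0
    have hdep : ¬ ∀ n : Fin 3 → ℤ, ∑ c, n c • d c = 0 → n = 0 := fun h => hθ3 d hd h hdet
    push Not at hdep
    obtain ⟨m, hm, hm0⟩ := hdep
    rw [Fin.sum_univ_three] at hm
    refine ⟨m 0, -m 1, -m 2, ?_, ?_⟩
    · by_contra hno
      push Not at hno
      apply hm0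
      funext c
      fin_cases c
      · exact hno.1
      · exact neg_eq_zero.1 hno.2.1
      · exact neg_eq_zero.1 hno.2.2
    · have e0 : d 0 = TT (x l) - TT (x 0) := rfl
      have e1 : d 1 = TT (x 1) - TT (x 0) := rfl
      have e2 : d 2 = TT (x 2) - TT (x 0) := rfl
      rw [e0, e1, e2] at hm
      rw [neg_smul, neg_smul, ← neg_add]
      rw [add_assoc] at hm
      exact eq_neg_of_add_eq_zero_left hm
  · -- the sumset
    let Z : Finset (II k → ℤ) := Fintype.piFinset (fun i => Sum.elim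
      (fun _ => Finset.Ico (0 : ℤ) ((2 * M : ℕ) : ℤ))
      (fun _ => Finset.Icc (-(1296 * (M : ℤ) ^ 2)) (1296 * (M : ℤ) ^ 2)) i)
    have hsub : (A : Set (Fin 3 → ℝ)) + (A : Set (Fin 3 → ℝ)) ⊆
        ((Z.image (lin θ) : Finset (Fin 3 → ℝ)) : Set (Fin 3 → ℝ)) := by
      rintro _ ⟨y, hy, z, hz, rfl⟩
      obtain ⟨x, hx, rfl⟩ := mem_image.1 (Finset.mem_coe.1 hy)
      obtain ⟨x', hx', rfl⟩ := mem_image.1 (Finset.mem_coe.1 hz)
      rw [Finset.mem_coe, mem_image]
      refine ⟨TT x + TT x', ?_, by rw [lin_add]⟩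
      rw [Fintype.mem_piFinset]
      have hy : ∀ x ∈ S, ∀ (j : Fin k) (c : Fin 4), |TT x (Sum.inr (j, c))| ≤ 648 * (M : ℤ) ^ 2 := by
        intro x hx j c
        have h1 : ∀ i, sz (blk x j i) M := by
          intro i
          have h2 : ∀ c, |x (j, i, c)| ≤ M := by
            intro c
            obtain ⟨h3, h4⟩ := hmemBox x (hSBox x hx) (j, i, c)
            rw [abs_of_nonneg h3]
            exact h4.le
          exact ⟨h2 0, h2 1, h2 2, h2 3⟩
        have h2 := sz_qf h1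
        obtain ⟨b1, b2, b3, b4⟩ := h2
        fin_cases c
        · exact b1
        · exact b2
        · exact b3
        · exact b4
      intro i
      rcases i with i | ⟨j, c⟩
      · simp only [Sum.elim_inl, Pi.add_apply, TT_inl, Finset.mem_Ico]
        obtain ⟨h3, h4⟩ := hmemBox x (hSBox x hx) i
        obtain ⟨h5, h6⟩ := hmemBox x' (hSBox x' hx') i
        push_cast
        constructor <;> omega
      · simp only [Sum.elim_inr, Pi.add_apply, Finset.mem_Icc]
        have h3 := abs_le.1 (hy x hx j c)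
        have h4 := abs_le.1 (hy x' hx' j c)
        constructor <;> linarith [h3.1, h3.2, h4.1, h4.2]
    have h1 := Set.ncard_le_ncard hsub (Finset.finite_toSet _)
    rw [Set.ncard_coe_finset] at h1
    refine h1.trans (Finset.card_image_le.trans ?_)
    have hZ : Z.card = (2 * M) ^ (16 * k) * (1296 * M ^ 2 + 1296 * M ^ 2 + 1) ^ (4 * k) := by
      simp only [Z, Fintype.card_piFinset]
      rw [Fintype.prod_sum_type]
      simp only [Sum.elim_inl, Sum.elim_inr, Int.card_Ico, Int.card_Icc, sub_zero,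
        Int.toNat_natCast, Finset.prod_const, Finset.card_univ]
      rw [hcardIX]
      congr 1
      rw [Fintype.card_prod, Fintype.card_fin, Fintype.card_fin, mul_comm k 4]
      congr 1
      have : (1296 * (M : ℤ) ^ 2 + 1 - -(1296 * (M : ℤ) ^ 2)) =
          ((1296 * M ^ 2 + 1296 * M ^ 2 + 1 : ℕ) : ℤ) := by
        push_cast; ring
      rw [this, Int.toNat_natCast]
    rw [hZ]
    have hM2 : 1 ≤ M ^ 2 := Nat.one_le_pow _ _ hM
    calc (2 * M) ^ (16 * k) * (1296 * M ^ 2 + 1296 * M ^ 2 + 1) ^ (4 * k)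
        ≤ (2 * M) ^ (16 * k) * (2593 * M ^ 2) ^ (4 * k) := by
          apply Nat.mul_le_mul_left
          apply Nat.pow_le_pow_left
          omega
      _ = K0 ^ k * M ^ (24 * k) := by
          unfold K0
          rw [mul_pow, mul_pow, mul_pow, ← pow_mul, ← pow_mul, ← pow_mul,
            show 24 * k = 16 * k + 2 * (4 * k) by ring, pow_add]
          ring

end Pool.Agent.H23.Cop
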